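import Mathlib

/-!
Definitions for the minimum-degree threshold forcing Fano-free 3-graphs to be bipartite.
-/

namespace Pool.Agent.P.MP_f07b17_co

/-- A 3-graph on the vertex set `Fin n`: a family of 3-element subsets. -/
def IsThreeGraph {n : ℕ} (E : Finset (Finset (Fin n))) : Prop := ∀ e ∈ E, e.card = 3

/-- No copy of the Fano plane (points: nonzero vectors of `F_2^3`, lines `{x, y, x + y}`). -/
def FanoFree {n : ℕ} (E : Finset (Finset (Fin n))) : Prop :=
  ¬ ∃ f : (Fin 3 → ZMod 2) → Fin n, Set.InjOn f {x | x ≠ 0} ∧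
    ∀ x y : Fin 3 → ZMod 2, x ≠ 0 → y ≠ 0 → x ≠ y → ({f x, f y, f (x + y)} : Finset (Fin n)) ∈ E

/-- The number of edges containing `v`. -/
def degree {n : ℕ} (E : Finset (Finset (Fin n))) (v : Fin n) : ℕ := (E.filter (v ∈ ·)).card

/-- The vertex set splits into `S` and its complement so that every edge meets both parts. -/
def Bipartite {n : ℕ} (E : Finset (Finset (Fin n))) : Prop :=
  ∃ S : Set (Fin n), ∀ e ∈ E, (∃ v ∈ e, v ∈ S) ∧ (∃ v ∈ e, v ∉ S)

/-- `P(c)`: all large Fano-free 3-graphs of minimum degree above `c * (n choose 2)` are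
bipartite. -/
def PropP (c : ℝ) : Prop :=
  ∃ n₀ : ℕ, ∀ n ≥ n₀, ∀ E : Finset (Finset (Fin n)), IsThreeGraph E → FanoFree E →
    (∀ v, c * (n.choose 2 : ℝ) < degree E v) → Bipartite E

/-- The threshold `c*`. -/
noncomputable def cStar : ℝ := sInf {c : ℝ | c ∈ Set.Icc (0 : ℝ) 1 ∧ PropP c}

end Pool.Agent.P.MP_f07b17_co
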