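import Pool.Agent.P.MP_f07b17_co.Defs

namespace Pool.Agent.P.MP_f07b17_co

open Finset

/-- Allowed sorted types; classes `0 = A, 1 = P, 2 = Q, 3 = R, 4 = X, 5 = Y, 6 = Z`. -/
def base : List (Fin 7 × Fin 7 × Fin 7) :=
  [(0,0,1),(0,0,2),(0,0,3),(0,1,1),(0,1,2),(0,1,3),(0,2,2),(0,2,3),(0,3,3),
   (0,1,4),(0,2,4),(0,3,4),(1,2,4),(1,3,4),(2,2,4),(2,3,4),(3,3,4),
   (0,1,5),(0,2,5),(0,3,5),(1,1,5),(1,3,5),(2,3,5),(3,3,5),
   (0,1,6),(0,2,6),(1,1,6),(2,2,6),(4,5,6)]

/-- The symmetric pattern. -/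
def al (i j k : Fin 7) : Bool :=
  base.any fun t => t == (i,j,k) || t == (i,k,j) || t == (j,i,k) || t == (j,k,i) ||
    t == (k,i,j) || t == (k,j,i)

theorem al_swap12 : ∀ i j k, al i j k = al j i k := by decide +kernel
theorem al_swap23 : ∀ i j k, al i j k = al i k j := by decide +kernel

theorem al_hom : ∀ a b c, al a b c = true → ∀ d e, al a d e = true → ∀ f, al b d f = true →
    al c e f = true → ∀ g, al a f g = true → al b e g = true → al c d g = false := by
  decide +kernel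

/-- The blow-up of the pattern along a type map. -/
def blow {n : ℕ} (t : Fin n → Fin 7) : Finset (Finset (Fin n)) :=
  (univ.powersetCard 3).filter fun e => ∃ u v w, e = {u, v, w} ∧ al (t u) (t v) (t w) = true

theorem blow_three {n : ℕ} (t : Fin n → Fin 7) : IsThreeGraph (blow t) := by
  intro e he
  simp only [blow, mem_filter, mem_powersetCard] at he
  exact he.1.2

theorem mem_blow {n : ℕ} (t : Fin n → Fin 7) {u v w : Fin n} (huv : u ≠ v) (huw : u ≠ w)
    (hvw : v ≠ w) : ({u, v, w} : Finset (Fin n)) ∈ blow t ↔ al (t u) (t v) (t w) = true := by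
  simp only [blow, mem_filter, mem_powersetCard, subset_univ, true_and]
  constructor
  · rintro ⟨-, a, b, c, h, hal⟩
    have hu : u ∈ ({a, b, c} : Finset (Fin n)) := h ▸ (by simp)
    have hv : v ∈ ({a, b, c} : Finset (Fin n)) := h ▸ (by simp)
    have hw : w ∈ ({a, b, c} : Finset (Fin n)) := h ▸ (by simp)
    simp only [mem_insert, mem_singleton] at hu hv hw
    have s12 := al_swap12
    have s23 := al_swap23
    rcases hu with rfl | rfl | rfl <;> rcases hv with rfl | rfl | rfl <;>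
      rcases hw with rfl | rfl | rfl <;> first | contradiction | grind
  · intro h
    exact ⟨card_eq_three.2 ⟨u, v, w, huv, huw, hvw, rfl⟩, u, v, w, rfl, h⟩

theorem blow_fanoFree {n : ℕ} (t : Fin n → Fin 7) : FanoFree (blow t) := by
  rintro ⟨f, hinj, hf⟩
  have key : ∀ x y z : Fin 3 → ZMod 2, x ≠ 0 → y ≠ 0 → z ≠ 0 → x ≠ y → x ≠ z → y ≠ z →
      x + y = z → al (t (f x)) (t (f y)) (t (f z)) = true := by
    intro x y z hx hy hz hxy hxz hyz h
    have := hf x y hx hy hxy
    rw [h] at this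
    exact (mem_blow t (fun e => hxy (hinj hx hy e)) (fun e => hxz (hinj hx hz e))
      (fun e => hyz (hinj hy hz e))).1 this
  have h1 := key ![1,0,0] ![0,1,0] ![1,1,0] (by decide) (by decide) (by decide) (by decide)
    (by decide) (by decide) (by decide)
  have h2 := key ![1,0,0] ![0,0,1] ![1,0,1] (by decide) (by decide) (by decide) (by decide)
    (by decide) (by decide) (by decide)
  have h3 := key ![0,1,0] ![0,0,1] ![0,1,1] (by decide) (by decide) (by decide) (by decide)
    (by decide) (by decide) (by decide)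
  have h4 := key ![1,1,0] ![1,0,1] ![0,1,1] (by decide) (by decide) (by decide) (by decide)
    (by decide) (by decide) (by decide)
  have h5 := key ![1,0,0] ![0,1,1] ![1,1,1] (by decide) (by decide) (by decide) (by decide)
    (by decide) (by decide) (by decide)
  have h6 := key ![0,1,0] ![1,0,1] ![1,1,1] (by decide) (by decide) (by decide) (by decide)
    (by decide) (by decide) (by decide)
  have h7 := key ![1,1,0] ![0,0,1] ![1,1,1] (by decide) (by decide) (by decide) (by decide)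
    (by decide) (by decide) (by decide)
  have := al_hom _ _ _ h1 _ _ h2 _ h3 h4 _ h5 h6
  rw [h7] at this
  exact absurd this (by decide)

theorem logic1 (a a' p p' q x y z : Prop) (h1 : a ↔ a') (h2 : p ↔ p')
    (e1 : ¬ ((a ↔ a') ∧ (a' ↔ p))) (e2 : ¬ ((a ↔ a') ∧ (a' ↔ q)))
    (e3 : ¬ ((p ↔ q) ∧ (q ↔ x))) (e4 : ¬ ((p ↔ p') ∧ (p' ↔ y))) (e5 : ¬ ((p ↔ p') ∧ (p' ↔ z)))
    (e6 : ¬ ((x ↔ y) ∧ (y ↔ z))) : False := by
  by_cases a <;> by_cases p <;> by_cases q <;> by_cases x <;> by_cases y <;> by_cases z <;>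
    simp_all

theorem logic2 (a b c : Prop) (h1 : ¬ (a ↔ b)) (h2 : ¬ (a ↔ c)) : b ↔ c := by tauto

theorem blow_not_bipartite {n : ℕ} (t : Fin n → Fin 7)
    (ht : ∀ i, 3 ≤ (univ.filter (t · = i)).card) : ¬ Bipartite (blow t) := by
  rintro ⟨S, hS⟩
  have mono : ∀ u v w, u ≠ v → u ≠ w → v ≠ w → al (t u) (t v) (t w) = true →
      ¬ ((u ∈ S ↔ v ∈ S) ∧ (v ∈ S ↔ w ∈ S)) := by
    intro u v w huv huw hvw hal hh
    obtain ⟨⟨a, ha, ha'⟩, ⟨b, hb, hb'⟩⟩ := hS _ ((mem_blow t huv huw hvw).2 hal)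
    simp only [mem_insert, mem_singleton] at ha hb
    obtain ⟨h1, h2⟩ := hh
    have hw1 : w ∈ S := by
      rcases ha with rfl | rfl | rfl
      exacts [h2.1 (h1.1 ha'), h2.1 ha', ha']
    apply hb'
    rcases hb with rfl | rfl | rfl
    exacts [h1.2 (h2.2 hw1), h2.2 hw1, hw1]
  have three : ∀ i, ∃ a b c, t a = i ∧ t b = i ∧ t c = i ∧ a ≠ b ∧ a ≠ c ∧ b ≠ c := by
    intro i
    obtain ⟨a, ha, b, hb, c, hc, h⟩ := two_lt_card.1 (ht i)
    simp only [mem_filter, mem_univ, true_and] at ha hb hc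
    exact ⟨a, b, c, ha, hb, hc, h⟩
  have two : ∀ i, ∃ a b, t a = i ∧ t b = i ∧ a ≠ b ∧ (a ∈ S ↔ b ∈ S) := by
    intro i
    obtain ⟨a, b, c, ha, hb, hc, h1, h2, h3⟩ := three i
    by_cases e1 : a ∈ S ↔ b ∈ S
    · exact ⟨a, b, ha, hb, h1, e1⟩
    by_cases e2 : a ∈ S ↔ c ∈ S
    · exact ⟨a, c, ha, hc, h2, e2⟩
    exact ⟨b, c, hb, hc, h3, logic2 _ _ _ e1 e2⟩
  obtain ⟨a, a', ha, ha', haa, hS1⟩ := two 0
  obtain ⟨p, p', hp, hp', hpp, hS2⟩ := two 1
  obtain ⟨q, -, hq, -⟩ := two 2
  obtain ⟨x, -, hx, -⟩ := two 4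
  obtain ⟨y, -, hy, -⟩ := two 5
  obtain ⟨z, -, hz, -⟩ := two 6
  have ne : ∀ u v : Fin n, t u ≠ t v → u ≠ v := fun u v h e => h (by rw [e])
  have e1 := mono a a' p haa (ne _ _ (by rw [ha, hp]; decide)) (ne _ _ (by rw [ha', hp]; decide))
    (by rw [ha, ha', hp]; decide)
  have e2 := mono a a' q haa (ne _ _ (by rw [ha, hq]; decide)) (ne _ _ (by rw [ha', hq]; decide))
    (by rw [ha, ha', hq]; decide)
  have e3 := mono p q x (ne _ _ (by rw [hp, hq]; decide)) (ne _ _ (by rw [hp, hx]; decide))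
    (ne _ _ (by rw [hq, hx]; decide)) (by rw [hp, hq, hx]; decide)
  have e4 := mono p p' y hpp (ne _ _ (by rw [hp, hy]; decide)) (ne _ _ (by rw [hp', hy]; decide))
    (by rw [hp, hp', hy]; decide)
  have e5 := mono p p' z hpp (ne _ _ (by rw [hp, hz]; decide)) (ne _ _ (by rw [hp', hz]; decide))
    (by rw [hp, hp', hz]; decide)
  have e6 := mono x y z (ne _ _ (by rw [hx, hy]; decide)) (ne _ _ (by rw [hx, hz]; decide))
    (ne _ _ (by rw [hy, hz]; decide)) (by rw [hx, hy, hz]; decide)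
  exact logic1 _ _ _ _ _ _ _ _ hS1 hS2 e1 e2 e3 e4 e5 e6

theorem blow_degree {n : ℕ} (t : Fin n → Fin 7) (v : Fin n) :
    ∑ i : Fin 7, ∑ j : Fin 7, (if al (t v) i j then
      (univ.filter (t · = i)).card * (univ.filter (t · = j)).card else 0)
      ≤ 2 * degree (blow t) v + 3 * n := by
  classical
  set U : Finset (Fin n × Fin n) := univ.filter fun p => al (t v) (t p.1) (t p.2) = true with hU
  have h1 : ∑ i : Fin 7, ∑ j : Fin 7, (if al (t v) i j then
      (univ.filter (t · = i)).card * (univ.filter (t · = j)).card else 0) = U.card := by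
    rw [card_eq_sum_card_fiberwise (f := fun p : Fin n × Fin n => (t p.1, t p.2)) (t := univ)
      (fun _ _ => by simp), ← univ_product_univ, sum_product]
    refine sum_congr rfl fun i _ => sum_congr rfl fun j _ => ?_
    split_ifs with h
    · rw [← card_product]
      congr 1
      ext p
      simp only [hU, mem_product, mem_filter, mem_univ, true_and, Prod.mk.injEq]
      constructor
      · rintro ⟨h1, h2⟩; exact ⟨by rw [h1, h2]; exact h, h1, h2⟩
      · exact fun h => h.2
    · symm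
      rw [card_eq_zero, filter_eq_empty_iff]
      intro p hp
      simp only [hU, mem_filter, mem_univ, true_and] at hp
      simp only [Prod.mk.injEq]
      rintro ⟨h1, h2⟩
      rw [h1, h2] at hp
      exact h hp
  rw [h1]
  set G : Finset (Fin n × Fin n) := U.filter fun p => p.1 ≠ p.2 ∧ p.1 ≠ v ∧ p.2 ≠ v with hG
  have h2 : U ⊆ G ∪ (univ.image (fun a : Fin n => (a, a)) ∪ (univ.image (fun a : Fin n => (v, a))
      ∪ univ.image (fun a : Fin n => (a, v)))) := by
    rintro ⟨a, b⟩ hp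
    simp only [hG, mem_union, mem_filter, mem_image, mem_univ, true_and, Prod.mk.injEq]
    by_cases e1 : a = b
    · exact Or.inr (Or.inl ⟨a, rfl, e1⟩)
    by_cases e2 : a = v
    · exact Or.inr (Or.inr (Or.inl ⟨b, e2.symm, rfl⟩))
    by_cases e3 : b = v
    · exact Or.inr (Or.inr (Or.inr ⟨a, rfl, e3.symm⟩))
    exact Or.inl ⟨hp, e1, e2, e3⟩
  have h3 : U.card ≤ G.card + (n + (n + n)) := by
    refine (card_le_card h2).trans ((card_union_le _ _).trans (Nat.add_le_add_left ?_ _))
    refine (card_union_le _ _).trans (Nat.add_le_add (card_image_le.trans (by simp)) ?_)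
    exact (card_union_le _ _).trans
      (Nat.add_le_add (card_image_le.trans (by simp)) (card_image_le.trans (by simp)))
  have h4 : G.card ≤ 2 * degree (blow t) v := by
    unfold degree
    refine card_le_mul_card_image_of_maps_to
      (f := fun p : Fin n × Fin n => ({v, p.1, p.2} : Finset (Fin n))) ?_ 2 ?_
    · rintro ⟨a, b⟩ hp
      simp only [hG, hU, mem_filter, mem_univ, true_and] at hp
      simp only [mem_filter, mem_insert, true_or, and_true]
      exact (mem_blow t hp.2.2.1.symm hp.2.2.2.symm hp.2.1).2 hp.1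
    · intro e _
      rcases (G.filter fun p : Fin n × Fin n =>
        ({v, p.1, p.2} : Finset (Fin n)) = e).eq_empty_or_nonempty with h | ⟨⟨a, b⟩, h⟩
      · rw [h]; simp
      · refine (card_le_card (t := {(a, b), (b, a)}) ?_).trans card_le_two
        rintro ⟨c, d⟩ h'
        simp only [hG, mem_filter] at h h'
        have hc : c ∈ ({v, a, b} : Finset (Fin n)) := by rw [h.2, ← h'.2]; simp
        have hd : d ∈ ({v, a, b} : Finset (Fin n)) := by rw [h.2, ← h'.2]; simp
        simp only [mem_insert, mem_singleton, Prod.mk.injEq] at hc hd ⊢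
        obtain ⟨⟨-, e1, e2, e3⟩, -⟩ := h'
        grind
  omega

theorem exists_type (s : Fin 7 → ℕ) :
    ∃ t : Fin (∑ i, s i) → Fin 7, ∀ i, (univ.filter (t · = i)).card = s i := by
  have hc : Fintype.card (Σ i : Fin 7, Fin (s i)) = ∑ i, s i := by simp
  let e := Fintype.equivFinOfCardEq hc
  refine ⟨fun v => (e.symm v).1, fun i => ?_⟩
  have : (univ.filter fun v => (e.symm v).1 = i) =
      (univ.map ⟨fun a : Fin (s i) => e ⟨i, a⟩, fun a b h => by simpa using h⟩) := by
    ext v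
    simp only [mem_filter, mem_univ, true_and, mem_map, Function.Embedding.coeFn_mk]
    constructor
    · intro h
      obtain ⟨⟨j, a⟩, rfl⟩ := e.surjective v
      simp only [Equiv.symm_apply_apply] at h
      subst h
      exact ⟨a, rfl⟩
    · rintro ⟨a, rfl⟩
      simp
  rw [this]
  simp

theorem not_propP (w : Fin 7 → ℝ) (hw : ∀ i, 0 ≤ w i) (hs : ∑ i, w i = 1) (c₀ : ℝ)
    (hd : ∀ k, c₀ ≤ ∑ i : Fin 7, ∑ j : Fin 7, if al k i j then w i * w j else 0)
    (c : ℝ) (hc0 : 0 ≤ c) (hc1 : c ≤ 1) (hc : c < c₀) : ¬ PropP c := by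
  rintro ⟨n₀, h⟩
  obtain ⟨T, hT⟩ := exists_nat_gt (max (n₀ : ℝ) (1000 / (c₀ - c)))
  have hT1 : (n₀ : ℝ) < T := (le_max_left _ _).trans_lt hT
  have hT2 : 1000 / (c₀ - c) < T := (le_max_right _ _).trans_lt hT
  have hδ : 0 < c₀ - c := sub_pos.2 hc
  rw [div_lt_iff₀ hδ] at hT2
  have hTpos : (1 : ℝ) ≤ T := by
    have : (0 : ℝ) < T := by
      by_contra hh
      nlinarith
    exact_mod_cast (Nat.cast_pos.1 this)
  let s : Fin 7 → ℕ := fun i => ⌈w i * T⌉₊ + 3
  have hs1 : ∀ i, w i * T ≤ s i := fun i => by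
    have := Nat.le_ceil (w i * T)
    simp only [s]; push_cast; linarith
  have hs2 : ∀ i, (s i : ℝ) ≤ w i * T + 4 := fun i => by
    have := Nat.ceil_lt_add_one (mul_nonneg (hw i) (Nat.cast_nonneg T))
    simp only [s]; push_cast; linarith
  obtain ⟨t, ht⟩ := exists_type s
  have hn1 : (T : ℝ) ≤ ((∑ i, s i : ℕ) : ℝ) := by
    push_cast
    calc (T : ℝ) = ∑ i, w i * T := by rw [← sum_mul, hs, one_mul]
      _ ≤ _ := sum_le_sum fun i _ => hs1 i
  have hn2 : ((∑ i, s i : ℕ) : ℝ) ≤ T + 28 := by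
    push_cast
    calc ∑ i, (s i : ℝ) ≤ ∑ i : Fin 7, (w i * T + 4) := sum_le_sum fun i _ => hs2 i
      _ = T + 28 := by rw [sum_add_distrib, ← sum_mul, hs]; norm_num
  refine blow_not_bipartite t (fun i => by rw [ht]; simp [s]) (h _ ?_ _ (blow_three t)
    (blow_fanoFree t) fun v => ?_)
  · exact_mod_cast (hT1.le.trans hn1)
  · have hdeg := blow_degree t v
    simp only [ht] at hdeg
    have hdeg' : ∑ i : Fin 7, ∑ j : Fin 7, (if al (t v) i j then (s i : ℝ) * s j else 0) ≤
        2 * (degree (blow t) v : ℝ) + 3 * ((∑ i, s i : ℕ) : ℝ) := by exact_mod_cast hdeg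
    have hlow : c₀ * T ^ 2 ≤
        ∑ i : Fin 7, ∑ j : Fin 7, (if al (t v) i j then (s i : ℝ) * s j else 0) := by
      refine (mul_le_mul_of_nonneg_right (hd (t v)) (by positivity)).trans ?_
      rw [sum_mul]
      refine sum_le_sum fun i _ => ?_
      rw [sum_mul]
      refine sum_le_sum fun j _ => ?_
      split_ifs
      · calc w i * w j * T ^ 2 = (w i * T) * (w j * T) := by ring
          _ ≤ _ := mul_le_mul (hs1 i) (hs1 j) (mul_nonneg (hw j) (by positivity)) (by positivity)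
      · simp
    generalize (∑ i, s i : ℕ) = n at *
    have hch : (n.choose 2 : ℝ) ≤ (T + 28) ^ 2 / 2 := by
      rw [Nat.cast_choose_two]
      have : (0 : ℝ) ≤ n := by positivity
      nlinarith
    have : c * (n.choose 2 : ℝ) ≤ c * ((T + 28) ^ 2 / 2) := mul_le_mul_of_nonneg_left hch hc0
    nlinarith [mul_le_mul_of_nonneg_right hc1 (show (0 : ℝ) ≤ 56 * T + 784 by positivity),
      mul_lt_mul_of_pos_right hT2 (show (0 : ℝ) < T by linarith)]

theorem propP_one : PropP 1 := by
  refine ⟨1, fun n hn E hE _ hd => ?_⟩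
  exfalso
  have v : Fin n := ⟨0, hn⟩
  have h := hd v
  rw [one_mul, Nat.cast_lt] at h
  have : degree E v ≤ n.choose 2 := by
    unfold degree
    have : n.choose 2 = ((univ : Finset (Fin n)).powersetCard 2).card := by simp
    rw [this]
    refine card_le_card_of_injOn (fun e => e.erase v) ?_ ?_
    · intro e he
      simp only [coe_filter, Set.mem_ofPred_eq] at he
      simp only [mem_coe, mem_powersetCard, subset_univ, true_and]
      rw [card_erase_of_mem he.2, hE e he.1]
    · intro e he e' he' hh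
      simp only [coe_filter, Set.mem_ofPred_eq] at he he'
      rw [← insert_erase he.2, ← insert_erase he'.2]
      simp only at hh
      rw [hh]
  omega

end Pool.Agent.P.MP_f07b17_co
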